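import Pool.Agent.R562.QH.Hybrid

set_option autoImplicit false

/-!
# Reductions from the clique problem whose output bits are computed with few queries
-/

namespace Pool.Agent.R562.QH

open Finset Filter
open scoped Classical

/-- The input bits of a graph with the vertices `0, …, n - 1`: the pairs `(i, j)` with `i < j`. -/
abbrev Pairs (n : ℕ) : Type := {e : Fin n × Fin n // e.1 < e.2}

/-- The graph with the given adjacency bits. -/
def graph {n : ℕ} (x : Pairs n → Bool) : SimpleGraph (Fin n) where
  Adj i j := (∃ h : i < j, x ⟨(i, j), h⟩ = true) ∨ (∃ h : j < i, x ⟨(j, i), h⟩ = true)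
  symm := ⟨fun _ _ h => h.symm⟩
  loopless := ⟨fun i h => by
    rcases h with ⟨h, -⟩ | ⟨h, -⟩ <;> exact lt_irrefl _ h⟩

/-- the adjacency bits of the graph without edges -/
def empt (n : ℕ) : Pairs n → Bool := fun _ => false

/-- the adjacency bits of the graph whose edges are all pairs in `S` -/
def planted {n : ℕ} (S : Finset (Fin n)) : Pairs n → Bool :=
  fun e => decide (e.1.1 ∈ S ∧ e.1.2 ∈ S)

lemma planted_clique {n : ℕ} (S : Finset (Fin n)) : (graph (planted S)).IsClique S := by
  intro i hi j hj hij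
  rcases lt_or_gt_of_ne hij with h | h
  · exact Or.inl ⟨h, by simpa [planted] using ⟨hi, hj⟩⟩
  · exact Or.inr ⟨h, by simpa [planted] using ⟨hj, hi⟩⟩

lemma planted_not_free {n s : ℕ} {S : Finset (Fin n)} (hS : S.card = s) :
    ¬ (graph (planted S)).CliqueFree s :=
  fun h => h S ⟨planted_clique S, hS⟩

lemma empty_free {n k : ℕ} (hk : 2 ≤ k) : (graph (empt n)).CliqueFree k := by
  intro S hS
  have h1 : 1 < S.card := by rw [hS.card_eq]; omega
  obtain ⟨a, ha, b, hb, hab⟩ := one_lt_card.1 h1
  have := hS.isClique ha hb hab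
  rcases this with ⟨h, h2⟩ | ⟨h, h2⟩ <;> simp [empt] at h2

/-- the sets with `s` elements -/
abbrev Sets (n s : ℕ) : Type := {S : Finset (Fin n) // S.card = s}

lemma card_sets (n s : ℕ) : Fintype.card (Sets n s) = n.choose s := by
  rw [Fintype.card_subtype]
  have : (univ.filter fun S : Finset (Fin n) => S.card = s) = powersetCard s univ := by
    ext S
    simp [mem_powersetCard]
  rw [this, card_powersetCard, card_univ, Fintype.card_fin]

/-- few sets contain a given pair -/
lemma card_sets_pair {n s : ℕ} (hs : 2 ≤ s) (e : Pairs n) :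
    (univ.filter fun S : Sets n s => planted S.1 e ≠ empt n e).card ≤
      (n - 2).choose (s - 2) := by
  have hne : e.1.1 ≠ e.1.2 := ne_of_lt e.2
  set D : Finset (Fin n) := {e.1.1, e.1.2} with hD
  have hDc : D.card = 2 := card_pair hne
  have h1 : (univ \ D : Finset (Fin n)).card = n - 2 := by
    rw [card_sdiff_of_subset (subset_univ _), card_univ, Fintype.card_fin, hDc]
  rw [← h1, ← card_powersetCard]
  refine card_le_card_of_injOn (fun S => S.1 \ D) ?_ ?_
  · intro S hS
    have hS' := (mem_filter.1 (mem_coe.1 hS)).2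
    have hmem : e.1.1 ∈ S.1 ∧ e.1.2 ∈ S.1 := by simpa [planted, empt] using hS'
    have hsub : D ⊆ S.1 := by
      intro z hz
      rw [hD, mem_insert, mem_singleton] at hz
      rcases hz with rfl | rfl
      · exact hmem.1
      · exact hmem.2
    refine mem_coe.2 (mem_powersetCard.2 ⟨sdiff_subset_sdiff (subset_univ _) le_rfl, ?_⟩)
    rw [card_sdiff_of_subset hsub, hDc, S.2]
  · intro S hS S' hS' h
    have key : ∀ S : Sets n s, S ∈ (univ.filter fun S : Sets n s =>
        planted S.1 e ≠ empt n e) → S.1 = (S.1 \ D) ∪ D := by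
      intro S hS
      have hmem : e.1.1 ∈ S.1 ∧ e.1.2 ∈ S.1 := by simpa [planted, empt] using (mem_filter.1 hS).2
      rw [sdiff_union_of_subset]
      intro z hz
      rw [hD, mem_insert, mem_singleton] at hz
      rcases hz with rfl | rfl
      · exact hmem.1
      · exact hmem.2
    apply Subtype.ext
    rw [key S (mem_coe.1 hS), key S' (mem_coe.1 hS')]
    simp only at h
    rw [h]

lemma choose_two_step {n s : ℕ} (hs : 2 ≤ s) (hn : s ≤ n) :
    n * (n - 1) * (n - 2).choose (s - 2) = n.choose s * (s * (s - 1)) := by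
  obtain ⟨s, rfl⟩ : ∃ r, s = r + 2 := ⟨s - 2, by omega⟩
  obtain ⟨n, rfl⟩ : ∃ r, n = r + 2 := ⟨n - 2, by omega⟩
  have h1 := Nat.add_one_mul_choose_eq (n + 1) (s + 1)
  have h2 := Nat.add_one_mul_choose_eq n s
  have e1 : n + 2 - 1 = n + 1 := by omega
  have e2 : n + 2 - 2 = n := by omega
  have e3 : s + 2 - 1 = s + 1 := by omega
  have e4 : s + 2 - 2 = s := by omega
  rw [e1, e2, e3, e4]
  calc (n + 2) * (n + 1) * n.choose s = (n + 2) * ((n + 1) * n.choose s) := by ring
    _ = (n + 2) * ((n + 1).choose (s + 1) * (s + 1)) := by rw [h2]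
    _ = ((n + 1 + 1) * (n + 1).choose (s + 1)) * (s + 1) := by ring
    _ = ((n + 1 + 1).choose (s + 1 + 1) * (s + 1 + 1)) * (s + 1) := by rw [h1]
    _ = (n + 2).choose (s + 2) * ((s + 2) * (s + 1)) := by ring

/-- A randomised map `R` from graphs to strings of bits indexed by `J` is right on the graph `x` for
the random choice `ω` if the answer `dec ω (R ω x)` is true for graphs with a clique of `s` vertices,
and false for graphs without clique of `k` vertices. -/
def RightOn {n : ℕ} (s k : ℕ) (x : Pairs n → Bool) (ans : Bool) : Prop :=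
  (¬ (graph x).CliqueFree s → ans = true) ∧ ((graph x).CliqueFree k → ans = false)

section

variable {n s k : ℕ} {J Ω : Type} [Fintype J] [Fintype Ω] [Nonempty Ω]

/-- The error probability is at most `e` on every graph. -/
def Correct (s k : ℕ) (e : ℝ) (ans : Ω → (Pairs n → Bool) → Bool) : Prop :=
  ∀ x : Pairs n → Bool,
    (1 - e) * Fintype.card Ω ≤ ((univ.filter fun ω => RightOn s k x (ans ω x)).card : ℝ)

/-- some random choice is right on the empty graph and on most planted cliques -/
lemma exists_choice {e : ℝ} {ans : Ω → (Pairs n → Bool) → Bool} (h : Correct s k e ans) :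
    ∃ ω, (1 - 2 * e) * Fintype.card (Sets n s) ≤
      ((univ.filter fun S : Sets n s => RightOn s k (empt n) (ans ω (empt n)) ∧
        RightOn s k (planted S.1) (ans ω (planted S.1))).card : ℝ) := by
  by_contra hcon
  push Not at hcon
  have h1 : ∀ S : Sets n s, (1 - 2 * e) * Fintype.card Ω ≤
      ((univ.filter fun ω => RightOn s k (empt n) (ans ω (empt n)) ∧
        RightOn s k (planted S.1) (ans ω (planted S.1))).card : ℝ) := by
    intro S
    have h2 := h (empt n)
    have h3 := h (planted S.1)
    have h4 : (univ.filter fun ω => RightOn s k (empt n) (ans ω (empt n))).card +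
        (univ.filter fun ω => RightOn s k (planted S.1) (ans ω (planted S.1))).card ≤
        Fintype.card Ω + (univ.filter fun ω => RightOn s k (empt n)
          (ans ω (empt n)) ∧ RightOn s k (planted S.1) (ans ω (planted S.1))).card := by
      rw [filter_and, ← card_union_add_card_inter]
      exact Nat.add_le_add_right (card_le_univ _) _
    have h5 : ((univ.filter fun ω => RightOn s k (empt n)
          (ans ω (empt n))).card : ℝ) +
        (univ.filter fun ω => RightOn s k (planted S.1) (ans ω (planted S.1))).card ≤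
        Fintype.card Ω + (univ.filter fun ω => RightOn s k (empt n)
          (ans ω (empt n)) ∧ RightOn s k (planted S.1) (ans ω (planted S.1))).card := by
      exact_mod_cast h4
    linarith
  have h2 : ∑ S : Sets n s, ((univ.filter fun ω => RightOn s k (empt n)
        (ans ω (empt n)) ∧ RightOn s k (planted S.1) (ans ω (planted S.1))).card : ℝ) =
      ∑ ω, ((univ.filter fun S : Sets n s => RightOn s k (empt n)
        (ans ω (empt n)) ∧ RightOn s k (planted S.1) (ans ω (planted S.1))).card : ℝ) := by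
    simp only [card_filter]
    push_cast
    rw [sum_comm]
  have h3 := sum_le_sum fun S (_ : S ∈ (univ : Finset (Sets n s))) => h1 S
  have h4 := sum_lt_sum_of_nonempty (univ_nonempty (α := Ω)) fun ω _ => hcon ω
  rw [sum_const, card_univ, nsmul_eq_mul] at h3 h4
  rw [h2] at h3
  nlinarith

/-- the combinatorial core: if every bit changes on few planted cliques, then there are many bits -/
lemma core {e : ℝ} (hk : 2 ≤ k) (hsn : s ≤ n) (hs : 2 ≤ s)
    {R : Ω → (Pairs n → Bool) → J → Bool} {dec : Ω → (J → Bool) → Bool}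
    (h : Correct s k e fun ω x => dec ω (R ω x)) {B : ℝ}
    (hB : ∀ ω j, ((univ.filter fun S : Sets n s =>
      R ω (planted S.1) j ≠ R ω (empt n) j).card : ℝ) ≤ B) :
    (1 - 2 * e) * Fintype.card (Sets n s) ≤ Fintype.card J * B := by
  obtain ⟨ω, hω⟩ := exists_choice h
  refine hω.trans ?_
  have h1 : (univ.filter fun S : Sets n s =>
      RightOn s k (empt n) (dec ω (R ω (empt n))) ∧
        RightOn s k (planted S.1) (dec ω (R ω (planted S.1)))) ⊆
      univ.biUnion fun j : J => univ.filter fun S : Sets n s =>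
        R ω (planted S.1) j ≠ R ω (empt n) j := by
    intro S hS
    obtain ⟨h2, h3⟩ := (mem_filter.1 hS).2
    have h4 := h2.2 (empty_free hk)
    have h5 := h3.1 (planted_not_free S.2)
    have h6 : R ω (planted S.1) ≠ R ω (empt n) := by
      intro h6
      rw [h6] at h5
      rw [h5] at h4
      exact absurd h4 (by simp)
    obtain ⟨j, hj⟩ := Function.ne_iff.1 h6
    exact mem_biUnion.2 ⟨j, mem_univ _, mem_filter.2 ⟨mem_univ _, hj⟩⟩
  calc ((univ.filter fun S : Sets n s =>
      RightOn s k (empt n) (dec ω (R ω (empt n))) ∧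
        RightOn s k (planted S.1) (dec ω (R ω (planted S.1)))).card : ℝ)
      ≤ ∑ j : J, ((univ.filter fun S : Sets n s =>
        R ω (planted S.1) j ≠ R ω (empt n) j).card : ℝ) := by
        have := (card_le_card h1).trans card_biUnion_le
        exact_mod_cast this
    _ ≤ ∑ _j : J, B := sum_le_sum fun j _ => hB ω j
    _ = Fintype.card J * B := by rw [sum_const, card_univ, nsmul_eq_mul]

/-- from numbers of sets to `n` -/
lemma to_n {A B : ℝ} (hs : 2 ≤ s) (hsn : s ≤ n)
    (h : A * n.choose s ≤ B * (n - 2).choose (s - 2)) :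
    A * (n * (n - 1 : ℕ)) ≤ B * (s * (s - 1 : ℕ)) := by
  have h1 := choose_two_step hs hsn
  have h2 : (n : ℝ) * (n - 1 : ℕ) * (n - 2).choose (s - 2) =
      n.choose s * (s * (s - 1 : ℕ)) := by exact_mod_cast h1
  have h3 : (0 : ℝ) < (n - 2).choose (s - 2) := by
    have : 0 < (n - 2).choose (s - 2) := Nat.choose_pos (by omega)
    exact_mod_cast this
  have h4 : 0 ≤ ((s : ℝ) * (s - 1 : ℕ)) := by positivity
  have h5 := mul_le_mul_of_nonneg_right h h4
  have h6 : (A * (n * (n - 1 : ℕ))) * (n - 2).choose (s - 2) ≤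
      (B * (s * (s - 1 : ℕ))) * (n - 2).choose (s - 2) := by
    calc (A * (n * (n - 1 : ℕ))) * ((n - 2).choose (s - 2) : ℝ)
        = A * ((n : ℝ) * (n - 1 : ℕ) * (n - 2).choose (s - 2)) := by ring
      _ = A * (n.choose s * (s * (s - 1 : ℕ))) := by rw [h2]
      _ = A * n.choose s * (s * (s - 1 : ℕ)) := by ring
      _ ≤ B * (n - 2).choose (s - 2) * (s * (s - 1 : ℕ)) := h5
      _ = _ := by ring
  exact le_of_mul_le_mul_right h6 h3

/-- **Quantum queries.** -/
theorem quantum {T : ℕ} {e q : ℝ} (hq0 : 0 ≤ q) (hq : q ≤ 1 / 2) (hk : 2 ≤ k) (hs : 2 ≤ s)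
    (hsn : s ≤ n) {R : Ω → (Pairs n → Bool) → J → Bool} {dec : Ω → (J → Bool) → Bool}
    (h : Correct s k e fun ω x => dec ω (R ω x))
    (hA : ∀ ω j, ∃ A : QuantumAlgorithm (Pairs n) T Bool, ∀ x, 1 - q ≤ A.prob x (R ω x j)) :
    (1 - 2 * Real.sqrt (q * (1 - q))) * (1 - 2 * e) * (n * (n - 1 : ℕ)) ≤
      2 * (T : ℝ) ^ 2 * Fintype.card J * (s * (s - 1 : ℕ)) := by
  set κ := 1 - 2 * Real.sqrt (q * (1 - q)) with hκ
  have hκ0 : 0 ≤ κ := by
    have h1 : Real.sqrt (q * (1 - q)) ≤ 1 / 2 := by
      rw [show (1 : ℝ) / 2 = Real.sqrt ((1 / 2) ^ 2) by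
        rw [Real.sqrt_sq (by norm_num)]]
      exact Real.sqrt_le_sqrt (by nlinarith [sq_nonneg (q - 1 / 2)])
    rw [hκ]
    linarith
  have hbit : ∀ ω j, κ * ((univ.filter fun S : Sets n s =>
      R ω (planted S.1) j ≠ R ω (empt n) j).card : ℝ) ≤
      2 * (T : ℝ) ^ 2 * ((n - 2).choose (s - 2) : ℕ) := by
    intro ω j
    obtain ⟨A, hA'⟩ := hA ω j
    have h0 := A.card_sensitive hq0 hq hA' (empt n) (fun S : Sets n s => planted S.1)
      ((n - 2).choose (s - 2)) (fun i => by convert card_sets_pair hs i)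
    convert h0
  apply to_n hs hsn
  rcases hκ0.lt_or_eq with hpos | hzero
  · have hB : ∀ ω j, ((univ.filter fun S : Sets n s =>
        R ω (planted S.1) j ≠ R ω (empt n) j).card : ℝ) ≤
        (2 * (T : ℝ) ^ 2 * ((n - 2).choose (s - 2) : ℕ)) / κ := by
      intro ω j
      rw [le_div_iff₀ hpos, mul_comm]
      exact hbit ω j
    have h1 := core hk hsn hs h hB
    rw [card_sets, mul_div_assoc', le_div_iff₀ hpos] at h1
    linarith
  · rw [← hzero]
    have : (0 : ℝ) ≤ 2 * (T : ℝ) ^ 2 * Fintype.card J * ((n - 2).choose (s - 2) : ℕ) := by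
      positivity
    simpa using this

end

end Pool.Agent.R562.QH
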