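import Pool.Agent.R562.QH.Clique

set_option autoImplicit false

/-!
# Reductions from the clique problem to small formulas: decision trees and quantum algorithms
-/

namespace Pool.Agent.R562.QH

open Finset Filter
open scoped Classical

/-- Decision trees which query bits indexed by `I`. -/
inductive DTree (I : Type) : Type
  | leaf (b : Bool) : DTree I
  | node (i : I) (t₀ t₁ : DTree I) : DTree I

namespace DTree

variable {I : Type}

/-- The output on the input `x`. -/
def eval : DTree I → (I → Bool) → Bool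
  | leaf b, _ => b
  | node i t₀ t₁, x => if x i = true then t₁.eval x else t₀.eval x

/-- The maximal number of queries. -/
def depth : DTree I → ℕ
  | leaf _ => 0
  | node _ t₀ t₁ => max t₀.depth t₁.depth + 1

/-- the bits which are queried on the input `x` -/
noncomputable def asked : DTree I → (I → Bool) → Finset I
  | leaf _, _ => ∅
  | node i t₀ t₁, x => insert i (if x i = true then t₁.asked x else t₀.asked x)

lemma card_asked (t : DTree I) (x : I → Bool) : (t.asked x).card ≤ t.depth := by
  induction t with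
  | leaf b => simp [asked, depth]
  | node i t₀ t₁ h₀ h₁ =>
    simp only [asked, depth]
    refine (card_insert_le _ _).trans (Nat.succ_le_succ ?_)
    split_ifs
    · exact h₁.trans (le_max_right _ _)
    · exact h₀.trans (le_max_left _ _)

lemma eval_eq (t : DTree I) {x y : I → Bool} (h : ∀ i ∈ t.asked x, y i = x i) :
    t.eval y = t.eval x := by
  induction t with
  | leaf b => rfl
  | node i t₀ t₁ h₀ h₁ =>
    simp only [asked] at h
    have hi := h i (mem_insert_self _ _)
    simp only [eval, hi]
    split_ifs with hx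
    · exact h₁ fun j hj => h j (mem_insert_of_mem (by rw [if_pos hx]; exact hj))
    · exact h₀ fun j hj => h j (mem_insert_of_mem (by rw [if_neg hx]; exact hj))

/-- few changes change the output -/
lemma card_sensitive (t : DTree I) (x : I → Bool) {ι : Type} [Fintype ι] (F : ι → I → Bool)
    (K : ℕ) (hK : ∀ i, (univ.filter fun s => F s i ≠ x i).card ≤ K) :
    (univ.filter fun s => t.eval (F s) ≠ t.eval x).card ≤ t.depth * K := by
  have h1 : (univ.filter fun s => t.eval (F s) ≠ t.eval x) ⊆
      (t.asked x).biUnion fun i => univ.filter fun s => F s i ≠ x i := by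
    intro s hs
    have hs' := (mem_filter.1 hs).2
    by_contra hcon
    apply hs'
    refine t.eval_eq fun i hi => ?_
    by_contra h2
    exact hcon (mem_biUnion.2 ⟨i, hi, mem_filter.2 ⟨mem_univ _, h2⟩⟩)
  calc (univ.filter fun s => t.eval (F s) ≠ t.eval x).card
      ≤ ∑ i ∈ t.asked x, (univ.filter fun s => F s i ≠ x i).card :=
        (card_le_card h1).trans card_biUnion_le
    _ ≤ ∑ _i ∈ t.asked x, K := sum_le_sum fun i _ => hK i
    _ = (t.asked x).card * K := by rw [sum_const, smul_eq_mul]
    _ ≤ t.depth * K := Nat.mul_le_mul_right _ (t.card_asked x)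

end DTree

section

variable {n s k : ℕ} {J Ω : Type} [Fintype J] [Fintype Ω] [Nonempty Ω]

/-- **Classical queries.** -/
theorem classical {T : ℕ} {e : ℝ} (hk : 2 ≤ k) (hs : 2 ≤ s)
    (hsn : s ≤ n) {R : Ω → (Pairs n → Bool) → J → Bool} {dec : Ω → (J → Bool) → Bool}
    (h : Correct s k e fun ω x => dec ω (R ω x))
    (hA : ∀ ω j, ∃ t : DTree (Pairs n), t.depth ≤ T ∧ ∀ x, t.eval x = R ω x j) :
    (1 - 2 * e) * (n * (n - 1 : ℕ)) ≤ T * Fintype.card J * (s * (s - 1 : ℕ)) := by
  apply to_n hs hsn
  have hB : ∀ ω j, ((univ.filter fun S : Sets n s =>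
      R ω (planted S.1) j ≠ R ω (empt n) j).card : ℝ) ≤ T * ((n - 2).choose (s - 2) : ℕ) := by
    intro ω j
    obtain ⟨t, ht, hev⟩ := hA ω j
    have h1 := t.card_sensitive (empt n) (fun S : Sets n s => planted S.1)
      ((n - 2).choose (s - 2)) (fun i => by convert card_sets_pair hs i)
    simp only [hev] at h1
    have h2 := h1.trans (Nat.mul_le_mul_right ((n - 2).choose (s - 2)) ht)
    have h3 : ((univ.filter fun S : Sets n s =>
      R ω (planted S.1) j ≠ R ω (empt n) j).card : ℝ) ≤
        ((T * (n - 2).choose (s - 2) : ℕ) : ℝ) := by exact_mod_cast h2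
    push_cast at h3
    exact h3
  have h1 := core hk hsn hs h hB
  rw [card_sets] at h1
  linarith

end

/-- Clauses with at most `d` literals in `v` variables. -/
abbrev Clause (v d : ℕ) : Type := Fin d → Option (Fin v × Bool)

/-- A formula is a set of clauses; it is satisfiable if some assignment makes a literal of every
clause true. -/
def Sat {v d : ℕ} (φ : Clause v d → Bool) : Prop :=
  ∃ α : Fin v → Bool, ∀ c, φ c = true → ∃ j l, c j = some l ∧ α l.1 = l.2

lemma card_clause (v d : ℕ) : Fintype.card (Clause v d) = (2 * v + 1) ^ d := by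
  simp [mul_comm]

/-- A randomised truth-table reduction: `R ω x (i, c)` says whether the clause `c` belongs to the
`i`-th formula, and the answers to the `Q` questions whether these formulas are satisfiable are
evaluated by `ev ω`. For every graph, the probability (over `ω`) that the answer is wrong is at most
`e`; for graphs with a clique of `s` vertices the answer should be true, for graphs without clique of
`k` vertices it should be false. -/
def Solves {n Q v d : ℕ} {Ω : Type} [Fintype Ω] (s k : ℕ) (e : ℝ)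
    (R : Ω → (Pairs n → Bool) → Fin Q × Clause v d → Bool) (ev : Ω → (Fin Q → Bool) → Bool) :
    Prop :=
  Correct s k e fun ω x => ev ω fun i => decide (Sat fun c => R ω x (i, c))

/-- polylogarithmic factors are small -/
theorem few_clauses (ε : ℝ) (hε : 0 < ε) (d F G c : ℕ) (M : ℝ) :
    ∀ᶠ n : ℕ in atTop, ∀ v : ℕ, v ≤ G * (Nat.log 2 (F * n ^ c) + 1) →
      M * (2 * v + 1 : ℝ) ^ d ≤ (n : ℝ) ^ ε := by
  rcases Nat.eq_zero_or_pos F with rfl | hF
  · -- `F = 0`
    have h1 : Tendsto (fun n : ℕ => (n : ℝ) ^ ε) atTop atTop :=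
      (tendsto_rpow_atTop hε).comp tendsto_natCast_atTop_atTop
    filter_upwards [h1.eventually_ge_atTop (|M| * (2 * G + 1 : ℝ) ^ d)] with n hn v hv
    have hv' : (v : ℝ) ≤ G := by
      have : v ≤ G := by simpa using hv
      exact_mod_cast this
    refine le_trans ?_ hn
    have h2 : (2 * v + 1 : ℝ) ^ d ≤ (2 * G + 1 : ℝ) ^ d :=
      pow_le_pow_left₀ (by positivity) (by linarith) d
    calc M * (2 * v + 1 : ℝ) ^ d ≤ |M| * (2 * v + 1 : ℝ) ^ d :=
          mul_le_mul_of_nonneg_right (le_abs_self M) (by positivity)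
      _ ≤ |M| * (2 * G + 1 : ℝ) ^ d := mul_le_mul_of_nonneg_left h2 (abs_nonneg M)
  -- log n is small
  have hlog : ∀ᶠ n : ℕ in atTop, Real.log n ≤ (n : ℝ) ^ (ε / (2 * (d + 1))) := by
    have h1 := isLittleO_log_rpow_atTop (show 0 < ε / (2 * ((d : ℝ) + 1)) by positivity)
    have h2 := (h1.bound (show (0 : ℝ) < 1 by norm_num))
    have h3 := tendsto_natCast_atTop_atTop (R := ℝ) |>.eventually h2
    filter_upwards [h3] with n hn
    rw [one_mul, Real.norm_of_nonneg (by positivity : (0:ℝ) ≤ (n : ℝ) ^ (ε / (2 * ((d : ℝ) + 1))))]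
      at hn
    exact (Real.le_norm_self _).trans hn
  set C : ℝ := 2 * G * (Real.log F / Real.log 2 + c / Real.log 2 + 1) + 1 with hC
  have hl2 : 0 < Real.log 2 := Real.log_pos (by norm_num)
  have hF1 : (1 : ℝ) ≤ F := by exact_mod_cast hF
  have hlF : 0 ≤ Real.log F := Real.log_nonneg hF1
  have hC0 : 0 ≤ C := by positivity
  have hbig : ∀ᶠ n : ℕ in atTop, |M| * C ^ d ≤ (n : ℝ) ^ (ε / 2) :=
    ((tendsto_rpow_atTop (show 0 < ε / 2 by positivity)).comp
      tendsto_natCast_atTop_atTop).eventually_ge_atTop _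
  filter_upwards [hlog, hbig, eventually_ge_atTop 3] with n h1 h2 hn v hv
  have hn0 : (3 : ℝ) ≤ n := by exact_mod_cast hn
  have hln : 1 ≤ Real.log n := by
    rw [← Real.log_exp 1]
    refine Real.log_le_log (Real.exp_pos 1) ?_
    linarith [Real.exp_one_lt_d9]
  have hv1 : (v : ℝ) ≤ G * ((Real.log F + c * Real.log n) / Real.log 2 + 1) := by
    have h3 : ((Nat.log 2 (F * n ^ c) : ℕ) : ℝ) ≤ Real.log (F * (n : ℝ) ^ c) / Real.log 2 := by
      have h4 : (Nat.log 2 (F * n ^ c) : ℝ) ≤ Real.logb 2 ((F * n ^ c : ℕ) : ℝ) := by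
        rw [Real.le_logb_iff_rpow_le (by norm_num) (by positivity), Real.rpow_natCast]
        have := Nat.pow_log_le_self 2 (show F * n ^ c ≠ 0 by positivity)
        exact_mod_cast this
      unfold Real.logb at h4
      push_cast at h4
      exact h4
    rw [Real.log_mul (by positivity) (by positivity), Real.log_pow] at h3
    calc (v : ℝ) ≤ ((G * (Nat.log 2 (F * n ^ c) + 1) : ℕ) : ℝ) := by exact_mod_cast hv
      _ = G * ((Nat.log 2 (F * n ^ c) : ℝ) + 1) := by push_cast; ring
      _ ≤ _ := by
        refine mul_le_mul_of_nonneg_left ?_ (Nat.cast_nonneg _)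
        linarith
  have hv2 : 2 * (v : ℝ) + 1 ≤ C * Real.log n := by
    have h3 : (Real.log F + c * Real.log n) / Real.log 2 + 1 ≤
        (Real.log F / Real.log 2 + c / Real.log 2 + 1) * Real.log n := by
      have h4 : Real.log F / Real.log 2 ≤ Real.log F / Real.log 2 * Real.log n :=
        le_mul_of_one_le_right (by positivity) hln
      calc (Real.log F + c * Real.log n) / Real.log 2 + 1
          = Real.log F / Real.log 2 + c / Real.log 2 * Real.log n + 1 := by ring
        _ ≤ Real.log F / Real.log 2 * Real.log n + c / Real.log 2 * Real.log n + Real.log n := by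
            linarith
        _ = _ := by ring
    have h4 := mul_le_mul_of_nonneg_left h3 (show (0 : ℝ) ≤ 2 * G by positivity)
    rw [hC]
    nlinarith
  have hv3 : (2 * (v : ℝ) + 1) ^ d ≤ C ^ d * (n : ℝ) ^ (ε / 2) := by
    calc (2 * (v : ℝ) + 1) ^ d ≤ (C * Real.log n) ^ d :=
          pow_le_pow_left₀ (by positivity) hv2 d
      _ = C ^ d * Real.log n ^ d := mul_pow _ _ _
      _ ≤ C ^ d * ((n : ℝ) ^ (ε / (2 * (d + 1)))) ^ d :=
          mul_le_mul_of_nonneg_left (pow_le_pow_left₀ (by linarith) h1 d) (by positivity)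
      _ ≤ C ^ d * (n : ℝ) ^ (ε / 2) := by
          refine mul_le_mul_of_nonneg_left ?_ (by positivity)
          rw [← Real.rpow_natCast, ← Real.rpow_mul (by positivity)]
          refine Real.rpow_le_rpow_of_exponent_le (by linarith) ?_
          rw [div_mul_eq_mul_div, div_le_div_iff₀ (by positivity) (by norm_num)]
          nlinarith
  calc M * (2 * v + 1 : ℝ) ^ d ≤ |M| * (2 * v + 1 : ℝ) ^ d :=
        mul_le_mul_of_nonneg_right (le_abs_self M) (by positivity)
    _ ≤ |M| * (C ^ d * (n : ℝ) ^ (ε / 2)) := mul_le_mul_of_nonneg_left hv3 (abs_nonneg M)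
    _ = (|M| * C ^ d) * (n : ℝ) ^ (ε / 2) := by ring
    _ ≤ (n : ℝ) ^ (ε / 2) * (n : ℝ) ^ (ε / 2) := mul_le_mul_of_nonneg_right h2 (by positivity)
    _ = (n : ℝ) ^ ε := by
        rw [← Real.rpow_add (by linarith)]
        congr 1
        ring

end Pool.Agent.R562.QH
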