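import Mathlib

set_option autoImplicit false

/-!
# Quantum query algorithms and the hybrid argument
-/

namespace Pool.Agent.R562.QH

open Finset
open scoped Classical

/-- A quantum algorithm with `T` queries to a string of bits indexed by `I` and with outputs in `O`.
`W` is the set of the basis states; `query w` is the bit which is queried in the basis state `w` (if
there is one); `U t` is a linear isometry of the space of the states, which is applied after `t`
queries; the state `start` has norm one; and `out w` is the output if the basis state `w` is measured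
at the end. -/
structure QuantumAlgorithm (I : Type) (T : ℕ) (O : Type) where
  W : Type
  fin : Fintype W
  query : W → Option I
  U : ℕ → (W → ℂ) →ₗ[ℂ] (W → ℂ)
  isometry : ∀ t ψ, ∑ w, ‖U t ψ w‖ ^ 2 = ∑ w, ‖ψ w‖ ^ 2
  start : W → ℂ
  start_norm : ∑ w, ‖start w‖ ^ 2 = 1
  out : W → O

attribute [instance] QuantumAlgorithm.fin

/-- The sign of a bit. -/
def sgn (b : Bool) : ℂ := if b = true then -1 else 1

/-- The query: the amplitude of the basis state `w` changes its sign if the queried bit is one. -/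
def oracle {I W : Type} (query : W → Option I) (x : I → Bool) (ψ : W → ℂ) : W → ℂ :=
  fun w => (query w).elim 1 (fun i => sgn (x i)) * ψ w

variable {I : Type} {T : ℕ} {O : Type}

namespace QuantumAlgorithm

/-- The state after `t` queries on the input `x`. -/
def state (A : QuantumAlgorithm I T O) (x : I → Bool) : ℕ → A.W → ℂ
  | 0 => A.U 0 A.start
  | t + 1 => A.U (t + 1) (oracle A.query x (state A x t))

/-- The probability of the output `o` on the input `x`. -/
noncomputable def prob (A : QuantumAlgorithm I T O) (x : I → Bool) (o : O) : ℝ :=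
  ∑ w ∈ univ.filter (fun w => A.out w = o), ‖A.state x T w‖ ^ 2

end QuantumAlgorithm

lemma norm_sgn (b : Bool) : ‖sgn b‖ = 1 := by cases b <;> simp [sgn]

/-- the norm of a state -/
noncomputable def nrm {W : Type} [Fintype W] (ψ : W → ℂ) : ℝ :=
  ‖(WithLp.toLp 2 ψ : EuclideanSpace ℂ W)‖

lemma nrm_sq {W : Type} [Fintype W] (ψ : W → ℂ) : nrm ψ ^ 2 = ∑ w, ‖ψ w‖ ^ 2 := by
  unfold nrm
  rw [EuclideanSpace.norm_sq_eq]

lemma nrm_nonneg {W : Type} [Fintype W] (ψ : W → ℂ) : 0 ≤ nrm ψ := norm_nonneg _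

lemma nrm_add_le {W : Type} [Fintype W] (ψ φ : W → ℂ) : nrm (ψ + φ) ≤ nrm ψ + nrm φ := by
  unfold nrm
  rw [WithLp.toLp_add]
  exact norm_add_le _ _

lemma nrm_congr {W : Type} [Fintype W] {ψ φ : W → ℂ} (h : ∑ w, ‖ψ w‖ ^ 2 = ∑ w, ‖φ w‖ ^ 2) :
    nrm ψ = nrm φ := by
  rw [← nrm_sq, ← nrm_sq] at h
  exact (sq_eq_sq₀ (nrm_nonneg _) (nrm_nonneg _)).1 h

lemma nrm_oracle {W : Type} [Fintype W] (query : W → Option I) (x : I → Bool) (ψ : W → ℂ) :
    nrm (oracle query x ψ) = nrm ψ := by
  refine nrm_congr (sum_congr rfl fun w _ => ?_)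
  unfold oracle
  rw [norm_mul]
  cases query w <;> simp [norm_sgn]

namespace QuantumAlgorithm

lemma state_norm (A : QuantumAlgorithm I T O) (x : I → Bool) (t : ℕ) :
    ∑ w, ‖A.state x t w‖ ^ 2 = 1 := by
  induction t with
  | zero => simp only [state]; rw [A.isometry, A.start_norm]
  | succ t ih =>
    simp only [state]
    rw [A.isometry, ← ih]
    refine sum_congr rfl fun w _ => ?_
    unfold oracle
    rw [norm_mul]
    cases A.query w <;> simp [norm_sgn]

/-- the mass of the queries to the bits in which `x` and `y` are different -/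
noncomputable def mass (A : QuantumAlgorithm I T O) (x : I → Bool) (t : ℕ) (y : I → Bool) : ℝ :=
  ∑ w, if ∃ i, A.query w = some i ∧ y i ≠ x i then ‖A.state x t w‖ ^ 2 else 0

lemma mass_nonneg (A : QuantumAlgorithm I T O) (x : I → Bool) (t : ℕ) (y : I → Bool) :
    0 ≤ A.mass x t y := by
  refine sum_nonneg fun w _ => ?_
  split_ifs <;> positivity

lemma nrm_oracle_sub (A : QuantumAlgorithm I T O) (x y : I → Bool) (t : ℕ) :
    nrm (oracle A.query y (A.state x t) - oracle A.query x (A.state x t)) ≤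
      2 * Real.sqrt (A.mass x t y) := by
  have h1 : nrm (oracle A.query y (A.state x t) - oracle A.query x (A.state x t)) ^ 2 ≤
      4 * A.mass x t y := by
    rw [nrm_sq]
    unfold mass
    rw [mul_sum]
    refine sum_le_sum fun w _ => ?_
    rw [Pi.sub_apply]
    unfold oracle
    rw [← sub_mul, norm_mul, mul_pow]
    have h0 : 0 ≤ ‖A.state x t w‖ ^ 2 := by positivity
    cases h : A.query w with
    | none => simp
    | some i =>
      simp only [Option.elim, Option.some.injEq]
      by_cases hi : y i = x i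
      · rw [hi, sub_self, norm_zero]
        have : ¬ ∃ j, i = j ∧ y j ≠ x j := by
          rintro ⟨j, rfl, hj⟩
          exact hj hi
        rw [if_neg this]
        simp
      · have : ∃ j, i = j ∧ y j ≠ x j := ⟨i, rfl, hi⟩
        rw [if_pos this]
        have h2 : ‖sgn (y i) - sgn (x i)‖ ≤ 2 := by
          refine (norm_sub_le _ _).trans ?_
          rw [norm_sgn, norm_sgn]
          norm_num
        have h3 : ‖sgn (y i) - sgn (x i)‖ ^ 2 ≤ 4 := by
          nlinarith [norm_nonneg (sgn (y i) - sgn (x i))]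
        exact mul_le_mul_of_nonneg_right h3 h0
  have h2 : nrm (oracle A.query y (A.state x t) - oracle A.query x (A.state x t)) ≤
      Real.sqrt (4 * A.mass x t y) := Real.le_sqrt_of_sq_le h1
  rw [Real.sqrt_mul (by norm_num)] at h2
  have h3 : Real.sqrt 4 = 2 := by
    rw [show (4 : ℝ) = 2 ^ 2 by norm_num, Real.sqrt_sq (by norm_num)]
  rwa [h3] at h2

/-- the hybrid argument -/
lemma nrm_state_sub (A : QuantumAlgorithm I T O) (x y : I → Bool) (t : ℕ) :
    nrm (A.state y t - A.state x t) ≤ ∑ r ∈ range t, 2 * Real.sqrt (A.mass x r y) := by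
  induction t with
  | zero =>
    have : A.state y 0 - A.state x 0 = 0 := by simp [state]
    rw [this, range_zero, sum_empty]
    unfold nrm
    simp
  | succ t ih =>
    have h1 : A.state y (t + 1) - A.state x (t + 1) =
        A.U (t + 1) (oracle A.query y (A.state y t - A.state x t) +
          (oracle A.query y (A.state x t) - oracle A.query x (A.state x t))) := by
      simp only [state]
      rw [← map_sub]
      congr 1
      funext w
      simp only [oracle, Pi.add_apply, Pi.sub_apply]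
      ring
    have h2 : ∀ ψ, nrm (A.U (t + 1) ψ) = nrm ψ := fun ψ => nrm_congr (A.isometry _ _)
    rw [h1, h2, sum_range_succ]
    refine (nrm_add_le _ _).trans (add_le_add ?_ (A.nrm_oracle_sub x y t))
    rw [nrm_oracle]
    exact ih

lemma sum_mass_le (A : QuantumAlgorithm I T O) (x : I → Bool) (t : ℕ) {ι : Type} [Fintype ι]
    (F : ι → I → Bool) (K : ℕ) (hK : ∀ i, (univ.filter fun s => F s i ≠ x i).card ≤ K) :
    ∑ s, A.mass x t (F s) ≤ K := by
  unfold mass
  rw [sum_comm]
  calc ∑ w, ∑ s, (if ∃ i, A.query w = some i ∧ F s i ≠ x i then ‖A.state x t w‖ ^ 2 else 0)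
      ≤ ∑ w, (K : ℝ) * ‖A.state x t w‖ ^ 2 := by
        refine sum_le_sum fun w _ => ?_
        rw [← sum_filter, sum_const, nsmul_eq_mul]
        refine mul_le_mul_of_nonneg_right ?_ (by positivity)
        norm_cast
        cases h : A.query w with
        | none => simp
        | some i =>
          refine le_trans (card_le_card ?_) (hK i)
          intro s hs
          rw [mem_filter] at hs ⊢
          obtain ⟨_, j, hj, hj'⟩ := hs
          have : i = j := by simpa using hj
          subst this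
          exact ⟨mem_univ _, hj'⟩
    _ = K := by rw [← mul_sum, A.state_norm, mul_one]

/-- the hybrid argument for a family of inputs -/
lemma sum_nrm_le (A : QuantumAlgorithm I T O) (x : I → Bool) {ι : Type} [Fintype ι]
    (F : ι → I → Bool) (K : ℕ) (hK : ∀ i, (univ.filter fun s => F s i ≠ x i).card ≤ K) (t : ℕ) :
    ∑ s, nrm (A.state (F s) t - A.state x t) ^ 2 ≤ 4 * (t : ℝ) ^ 2 * K := by
  have h1 : ∀ s, nrm (A.state (F s) t - A.state x t) ^ 2 ≤
      t * ∑ r ∈ range t, 4 * A.mass x r (F s) := by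
    intro s
    have h2 := A.nrm_state_sub x (F s) t
    have h3 : nrm (A.state (F s) t - A.state x t) ^ 2 ≤
        (∑ r ∈ range t, 2 * Real.sqrt (A.mass x r (F s))) ^ 2 :=
      pow_le_pow_left₀ (nrm_nonneg _) h2 2
    refine h3.trans ?_
    have h4 := sq_sum_le_card_mul_sum_sq (s := range t)
      (f := fun r => 2 * Real.sqrt (A.mass x r (F s)))
    rw [card_range] at h4
    refine h4.trans (le_of_eq ?_)
    congr 1
    refine sum_congr rfl fun r _ => ?_
    rw [mul_pow, Real.sq_sqrt (A.mass_nonneg _ _ _)]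
    norm_num
  refine (sum_le_sum fun s _ => h1 s).trans ?_
  rw [← mul_sum, sum_comm]
  have h5 : ∀ r ∈ range t, ∑ s, 4 * A.mass x r (F s) ≤ 4 * K := by
    intro r _
    rw [← mul_sum]
    exact mul_le_mul_of_nonneg_left (A.sum_mass_le x r F K hK) (by norm_num)
  have h6 := sum_le_sum h5
  rw [sum_const, card_range, nsmul_eq_mul] at h6
  have ht : (0 : ℝ) ≤ t := Nat.cast_nonneg t
  calc (t : ℝ) * ∑ r ∈ range t, ∑ s, 4 * A.mass x r (F s) ≤ t * (t * (4 * K)) :=
        mul_le_mul_of_nonneg_left h6 ht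
    _ = 4 * (t : ℝ) ^ 2 * K := by ring

lemma dist_sq {W : Type} (s : Finset W) (u v : W → ℂ) :
    (Real.sqrt (∑ w ∈ s, ‖u w‖ ^ 2) - Real.sqrt (∑ w ∈ s, ‖v w‖ ^ 2)) ^ 2 ≤
      ∑ w ∈ s, ‖u w - v w‖ ^ 2 := by
  have h1 : ∀ w, ‖u w‖ ^ 2 + ‖v w‖ ^ 2 - 2 * (‖u w‖ * ‖v w‖) ≤ ‖u w - v w‖ ^ 2 := by
    intro w
    have h2 := abs_norm_sub_norm_le (u w) (v w)
    have h3 := sq_le_sq' (by linarith [norm_nonneg (u w - v w), abs_nonneg (‖u w‖ - ‖v w‖)]) h2
    rw [sq_abs] at h3
    nlinarith
  have h4 : ∑ w ∈ s, ‖u w‖ * ‖v w‖ ≤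
      Real.sqrt (∑ w ∈ s, ‖u w‖ ^ 2) * Real.sqrt (∑ w ∈ s, ‖v w‖ ^ 2) :=
    Real.sum_mul_le_sqrt_mul_sqrt _ _ _
  have h5 := sum_le_sum fun w (_ : w ∈ s) => h1 w
  rw [sum_sub_distrib, sum_add_distrib, ← mul_sum] at h5
  have h6 := Real.sq_sqrt (show 0 ≤ ∑ w ∈ s, ‖u w‖ ^ 2 by positivity)
  have h7 := Real.sq_sqrt (show 0 ≤ ∑ w ∈ s, ‖v w‖ ^ 2 by positivity)
  nlinarith

/-- states with different outputs are far apart -/
lemma far (A : QuantumAlgorithm I T O) {q : ℝ} (hq0 : 0 ≤ q) (hq : q ≤ 1 / 2) {x y : I → Bool}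
    {a b : O} (hab : b ≠ a) (hx : 1 - q ≤ A.prob x a) (hy : 1 - q ≤ A.prob y b) :
    2 * (1 - 2 * Real.sqrt (q * (1 - q))) ≤ nrm (A.state y T - A.state x T) ^ 2 := by
  have hdis : Disjoint (univ.filter fun w => A.out w = a) (univ.filter fun w => A.out w = b) := by
    rw [disjoint_left]
    intro w hw hw'
    simp only [mem_filter, mem_univ, true_and] at hw hw'
    exact hab (hw'.symm.trans hw)
  have hle : ∀ z, A.prob z a + A.prob z b ≤ 1 := by
    intro z
    unfold prob
    rw [← sum_union hdis, ← A.state_norm z T]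
    exact sum_le_sum_of_subset_of_nonneg (subset_univ _) fun w _ _ => by positivity
  have h3 := hle x
  have h4 := hle y
  have key : ∀ p p' : ℝ, 1 - q ≤ p → p' ≤ q → 0 ≤ p' →
      1 - 2 * Real.sqrt (q * (1 - q)) ≤ (Real.sqrt p - Real.sqrt p') ^ 2 := by
    intro p p' hp hp' hp0
    have e1 : Real.sqrt (1 - q) ≤ Real.sqrt p := Real.sqrt_le_sqrt hp
    have e2 : Real.sqrt p' ≤ Real.sqrt q := Real.sqrt_le_sqrt hp'
    have e3 : Real.sqrt q ≤ Real.sqrt (1 - q) := Real.sqrt_le_sqrt (by linarith)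
    have e4 : Real.sqrt (q * (1 - q)) = Real.sqrt q * Real.sqrt (1 - q) :=
      Real.sqrt_mul hq0 _
    have e5 := Real.sq_sqrt hq0
    have e6 := Real.sq_sqrt (show 0 ≤ 1 - q by linarith)
    have e7 : (Real.sqrt (1 - q) - Real.sqrt q) ^ 2 ≤ (Real.sqrt p - Real.sqrt p') ^ 2 :=
      pow_le_pow_left₀ (by linarith) (by linarith) 2
    rw [e4]
    nlinarith
  have hnn : ∀ z o, 0 ≤ A.prob z o := fun z o => sum_nonneg fun w _ => by positivity
  have h5 := key (A.prob x a) (A.prob y a) hx (by linarith) (hnn _ _)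
  have h6 := key (A.prob y b) (A.prob x b) hy (by linarith) (hnn _ _)
  have h7 := dist_sq (univ.filter fun w => A.out w = a) (A.state x T) (A.state y T)
  have h8 := dist_sq (univ.filter fun w => A.out w = b) (A.state y T) (A.state x T)
  have h9 : ∑ w ∈ univ.filter (fun w => A.out w = a), ‖A.state x T w - A.state y T w‖ ^ 2 =
      ∑ w ∈ univ.filter (fun w => A.out w = a), ‖A.state y T w - A.state x T w‖ ^ 2 :=
    sum_congr rfl fun w _ => by rw [norm_sub_rev]
  rw [h9] at h7
  have h10 : ∑ w ∈ univ.filter (fun w => A.out w = a), ‖A.state y T w - A.state x T w‖ ^ 2 +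
      ∑ w ∈ univ.filter (fun w => A.out w = b), ‖A.state y T w - A.state x T w‖ ^ 2 ≤
      ∑ w, ‖A.state y T w - A.state x T w‖ ^ 2 := by
    rw [← sum_union hdis]
    exact sum_le_sum_of_subset_of_nonneg (subset_univ _) fun w _ _ => by positivity
  have h7' : (Real.sqrt (A.prob x a) - Real.sqrt (A.prob y a)) ^ 2 ≤
      ∑ w ∈ univ.filter (fun w => A.out w = a), ‖A.state y T w - A.state x T w‖ ^ 2 := h7
  have h8' : (Real.sqrt (A.prob y b) - Real.sqrt (A.prob x b)) ^ 2 ≤
      ∑ w ∈ univ.filter (fun w => A.out w = b), ‖A.state y T w - A.state x T w‖ ^ 2 := h8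
  rw [nrm_sq]
  simp only [Pi.sub_apply]
  linarith

/-- If a quantum algorithm with `T` queries computes `f` with error probability `q` on `x` and on
the inputs `F s`, then it cannot be sensitive to many of the changes from `x` to `F s`. -/
theorem card_sensitive (A : QuantumAlgorithm I T O) {f : (I → Bool) → O} {q : ℝ} (hq0 : 0 ≤ q)
    (hq : q ≤ 1 / 2) (hA : ∀ x, 1 - q ≤ A.prob x (f x)) (x : I → Bool) {ι : Type} [Fintype ι]
    (F : ι → I → Bool) (K : ℕ) (hK : ∀ i, (univ.filter fun s => F s i ≠ x i).card ≤ K) :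
    (1 - 2 * Real.sqrt (q * (1 - q))) * ((univ.filter fun s => f (F s) ≠ f x).card : ℝ) ≤
      2 * (T : ℝ) ^ 2 * K := by
  have h1 := A.sum_nrm_le x F K hK T
  have h2 : 2 * (1 - 2 * Real.sqrt (q * (1 - q))) *
      ((univ.filter fun s => f (F s) ≠ f x).card : ℝ) ≤
      ∑ s, nrm (A.state (F s) T - A.state x T) ^ 2 := by
    rw [mul_comm, ← nsmul_eq_mul, ← sum_const]
    refine (sum_le_sum fun s hs => ?_).trans (sum_le_sum_of_subset_of_nonneg
      (f := fun s => nrm (A.state (F s) T - A.state x T) ^ 2) (filter_subset _ _)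
      fun _ _ _ => by positivity)
    exact A.far hq0 hq (mem_filter.1 hs).2 (hA x) (hA (F s))
  linarith

end QuantumAlgorithm

end Pool.Agent.R562.QH
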